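import Pool.Agent.H447.QR.Stm2
import Pool.Graph.R_seed8.Helper566.FD.J7

/-!
# Project QR (helper447): the statement `S_CF`

Computability of the conditions of the family.
-/

set_option autoImplicit false

namespace Pool.Agent.H120.QR.CF

open Pool.Agent.H447.QR
open Pool.Agent.Helper566.FD.J7

variable {α : Type} [Primcodable α]

/-! ### Closure properties -/

theorem zadd {f g : α → ℤ} (hf : Primrec f) (hg : Primrec g) : Primrec fun a => f a + g a :=
  prim_int_add.comp hf hg

theorem zsub {f g : α → ℤ} (hf : Primrec f) (hg : Primrec g) : Primrec fun a => f a - g a :=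
  prim_int_sub.comp hf hg

theorem zmul {f g : α → ℤ} (hf : Primrec f) (hg : Primrec g) : Primrec fun a => f a * g a :=
  prim_int_mul.comp hf hg

theorem zpow {f : α → ℤ} (hf : Primrec f) (n : ℕ) : Primrec fun a => f a ^ n := by
  induction n with
  | zero => exact (Primrec.const (1 : ℤ)).of_eq fun a => by simp
  | succ n ih => exact (zmul ih hf).of_eq fun a => by rw [pow_succ]

theorem zabs {f : α → ℤ} (hf : Primrec f) : Primrec fun a => (f a).natAbs :=
  (Primrec.nat_add.comp (prim_toNat.comp hf) (prim_toNat_neg.comp hf)).of_eq fun a => by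
    omega

theorem zcast {f : α → ℕ} (hf : Primrec f) : Primrec fun a => (f a : ℤ) :=
  prim_natCast.comp hf

theorem zeq {f g : α → ℤ} (hf : Primrec f) (hg : Primrec g) : PrimrecPred fun a => f a = g a :=
  Primrec.eq.comp hf hg

theorem zconst (c : ℤ) : Primrec fun _ : α => c := Primrec.const c

/-! ### The functions of the coefficients -/

theorem tA {t : α → T5} (ht : Primrec t) : Primrec fun a => (ofT (t a)).A :=
  Primrec.fst.comp ht

theorem tB {t : α → T5} (ht : Primrec t) : Primrec fun a => (ofT (t a)).B :=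
  Primrec.fst.comp (Primrec.snd.comp ht)

theorem tC {t : α → T5} (ht : Primrec t) : Primrec fun a => (ofT (t a)).C :=
  Primrec.fst.comp (Primrec.snd.comp (Primrec.snd.comp ht))

theorem tD {t : α → T5} (ht : Primrec t) : Primrec fun a => (ofT (t a)).D :=
  Primrec.fst.comp (Primrec.snd.comp (Primrec.snd.comp (Primrec.snd.comp ht)))

theorem tE {t : α → T5} (ht : Primrec t) : Primrec fun a => (ofT (t a)).E :=
  Primrec.snd.comp (Primrec.snd.comp (Primrec.snd.comp (Primrec.snd.comp ht)))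

theorem tI {t : α → T5} (ht : Primrec t) : Primrec fun a => (ofT (t a)).I := by
  unfold Qf.I
  exact zadd (zsub (zmul (zmul (zconst _) (tA ht)) (tE ht)) (zmul (zmul (zconst _) (tB ht))
    (tD ht))) (zpow (tC ht) 2)

theorem tJ {t : α → T5} (ht : Primrec t) : Primrec fun a => (ofT (t a)).J := by
  unfold Qf.J
  exact zsub (zsub (zsub (zadd
    (zmul (zmul (zmul (zconst _) (tA ht)) (tC ht)) (tE ht))
    (zmul (zmul (zmul (zconst _) (tB ht)) (tC ht)) (tD ht)))
    (zmul (zmul (zconst _) (tA ht)) (zpow (tD ht) 2)))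
    (zmul (zmul (zconst _) (tE ht)) (zpow (tB ht) 2)))
    (zmul (zconst _) (zpow (tC ht) 3))

/-! ### Bounded quantifiers -/

theorem pex {P : α → ℤ → Prop} {B : α → ℕ} (hB : Primrec B)
    (hP : PrimrecPred fun p : α × ℤ => P p.1 p.2) :
    PrimrecPred fun a => ∃ x : ℤ, x.natAbs ≤ B a ∧ P a x := by
  have h1 : PrimrecRel fun (i : ℕ) (a : α) => P a ((i : ℤ) - B a) :=
    hP.comp (Primrec.pair Primrec.snd (zsub (zcast Primrec.fst) (zcast (hB.comp Primrec.snd))))
  have h2 : PrimrecPred fun a : α => ∃ i ∈ List.range (2 * B a + 1), P a ((i : ℤ) - B a) :=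
    h1.exists_mem_list.comp
      (Primrec.list_range.comp (Primrec.nat_add.comp (Primrec.nat_mul.comp (Primrec.const 2) hB)
        (Primrec.const 1))) Primrec.id
  refine h2.of_eq fun a => ?_
  constructor
  · rintro ⟨i, hi, h⟩
    rw [List.mem_range] at hi
    exact ⟨(i : ℤ) - B a, by omega, h⟩
  · rintro ⟨x, hx, h⟩
    refine ⟨(x + B a).toNat, by rw [List.mem_range]; omega, ?_⟩
    have : (((x + B a).toNat : ℕ) : ℤ) - B a = x := by omega
    rw [this]
    exact h

/-- Squares times a constant. -/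
theorem psq {f : α → ℤ} (hf : Primrec f) (c : ℤ) (hc : c ≠ 0) :
    PrimrecPred fun a => ∃ A : ℤ, A ≠ 0 ∧ f a = c * A ^ 2 := by
  have h := pex (P := fun a A => A ≠ 0 ∧ f a = c * A ^ 2) (B := fun a => (f a).natAbs) (zabs hf)
    (((zeq Primrec.snd (zconst 0)).not).and
      (zeq (hf.comp Primrec.fst) (zmul (zconst c) (zpow Primrec.snd 2))))
  refine h.of_eq fun a => ?_
  constructor
  · rintro ⟨A, -, hA⟩
    exact ⟨A, hA⟩
  · rintro ⟨A, hA0, hA⟩
    refine ⟨A, ?_, hA0, hA⟩
    rw [hA, Int.natAbs_mul, Int.natAbs_pow]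
    have h1 : 1 ≤ c.natAbs := Nat.one_le_iff_ne_zero.2 (Int.natAbs_ne_zero.2 hc)
    have h2 : A.natAbs ≤ A.natAbs ^ 2 := Nat.le_self_pow (by norm_num) _
    exact h2.trans (Nat.le_mul_of_pos_left _ h1)

theorem cube : PrimrecPred (fun A : ℤ => ∃ m : ℤ, A = m ^ 3 ∨ A = 2 * m ^ 3) := by
  have h := pex (α := ℤ) (P := fun A m => A = m ^ 3 ∨ A = 2 * m ^ 3) (B := fun A => A.natAbs)
    (zabs Primrec.id)
    ((zeq Primrec.fst (zpow Primrec.snd 3)).or
      (zeq Primrec.fst (zmul (zconst 2) (zpow Primrec.snd 3))))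
  refine h.of_eq fun A => ?_
  constructor
  · rintro ⟨m, -, hm⟩
    exact ⟨m, hm⟩
  · rintro ⟨m, hm⟩
    refine ⟨m, ?_, hm⟩
    have h2 : m.natAbs ≤ m.natAbs ^ 3 := Nat.le_self_pow (by norm_num) _
    rcases hm with hm | hm
    · rw [hm, Int.natAbs_pow]
      exact h2
    · rw [hm, Int.natAbs_mul, Int.natAbs_pow]
      exact h2.trans (Nat.le_mul_of_pos_left _ (by norm_num))

theorem pbA : Primrec bA := by
  unfold bA
  exact zmul (zconst _) (zpow Primrec.id 2)

/-- CF. -/
theorem t_CF : S_CF := by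
  refine ⟨?_, ?_, cube, Primrec.pair (zconst 0) pbA, ?_⟩
  · exact (zeq Primrec.fst (zconst 0)).and (psq Primrec.snd (-432) (by norm_num))
  · exact (zeq (tI Primrec.id) (zconst 0)).and (psq (tJ Primrec.id) 746496 (by norm_num))
  · refine ⟨fun c => ((Nat.sqrt (c.2.natAbs / 432) : ℕ) : ℤ), ?_, ?_⟩
    · exact zcast (Primrec.nat_sqrt.comp (Primrec.nat_div.comp (zabs Primrec.snd)
        (Primrec.const 432)))
    · intro A
      have h1 : (bA A).natAbs / 432 = A.natAbs * A.natAbs := by
        unfold bA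
        rw [Int.natAbs_mul, Int.natAbs_pow, pow_two]
        exact Nat.mul_div_cancel_left _ (by norm_num)
      simp only
      rw [h1, Nat.sqrt_eq]
      omega

end Pool.Agent.H120.QR.CF
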